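import Mathlib
import Pool.Agent.E8helper57.BlockDefs
import Pool.Agent.E8helper57.UnitriBlock
import Pool.Agent.E8helper57.UnitriRed

/-!
# A block of a quasi-simple group of Lie type whose decomposition matrix is not unitriangular

The group is `SL(2, 9)` (a double cover of `PSL(2, 9)`), the prime is `3`, and the block is the one which
contains the Brauer character of the natural two-dimensional module.

Idea of the proof.  If the decomposition matrix of a block is unitriangular, then some ordinary
irreducible character `χ` in the block restricts to an irreducible Brauer character.  In the present block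
the central involution acts as `-1`.  The irreducible modules in characteristic three on which it acts so
have dimensions two and six: by looking at the matrix coefficient of a highest weight vector and a fixed
functional one sees that such a module is spanned by the functions `(c, d) ↦ (α c + β d) ^ j` on pairs, with
`j = 1, 3, 5, 7`.  The dimension of an irreducible complex representation on which the central involution
acts as `-1` is a multiple of four (if the upper unitriangular group has no nonzero fixed vector: count
traces), or at least nine.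
-/

set_option autoImplicit false

open Matrix
open scoped MatrixGroups
open Pool.Agent.E8helper57.Unitri

namespace Pool.Agent.Results.MP_5c3aa2_al.NotUnitriangularH57

/-- **Negative answer to Q1.**  Let `G = SL(2, 9)`, a finite perfect group whose quotient by its centre is
the finite simple group `PSL(2, 9)` of Lie type, and let `ℓ = 3`.  There are reduction maps `red` from the
ring of algebraic integers to the algebraic closure of the field with three elements, and for each of them
`G` has a `3`-block (with central character `lam`) whose decomposition matrix is not unitriangular. -/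
theorem result :
    Finite SL(2, GaloisField 3 2) ∧
    commutator SL(2, GaloisField 3 2) = ⊤ ∧
    IsSimpleGroup (SL(2, GaloisField 3 2) ⧸ Subgroup.center SL(2, GaloisField 3 2)) ∧
    Nonempty (AlgInt →+* Kbar 3) ∧
    ∀ red : AlgInt →+* Kbar 3, ∃ lam : ConjClasses SL(2, GaloisField 3 2) → Kbar 3,
      IsBlock red lam ∧ ¬ IsUnitriangular red lam := by
  have hcardF : Nat.card (GaloisField 3 2) = 9 := by
    rw [GaloisField.card 3 2 (by norm_num)]; norm_num
  have : Fintype (GaloisField 3 2) := Fintype.ofFinite _
  have hcardF' : Fintype.card (GaloisField 3 2) = 9 := by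
    rw [← Nat.card_eq_fintype_card, hcardF]
  have hfin : Finite SL(2, GaloisField 3 2) := inferInstance
  have hsimple : IsSimpleGroup (SL(2, GaloisField 3 2) ⧸ Subgroup.center SL(2, GaloisField 3 2)) :=
    Matrix.ProjectiveSpecialLinearGroup.rank_two_simple (by rw [hcardF]; norm_num)
  obtain ⟨g₀, hgen, ho, hg4⟩ := exists_gen hcardF'
  have hperf : commutator SL(2, GaloisField 3 2) = ⊤ := by
    refine SL2.commutator_eq_top (a := (g₀ : GaloisField 3 2)) g₀.ne_zero ?_
    intro h
    have h1 : g₀ ^ 2 = 1 := Units.ext (by rw [Units.val_pow_eq_pow_val, h]; rfl)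
    have := orderOf_dvd_of_pow_eq_one h1
    rw [ho] at this
    omega
  refine ⟨hfin, hperf, hsimple, exists_red 3, ?_⟩
  intro red
  have : CharP (Kbar 3) 3 := inferInstance
  -- the embedding of the field with nine elements
  let ι : GaloisField 3 2 →+* Kbar 3 :=
    ((IsAlgClosed.lift : GaloisField 3 2 →ₐ[ZMod 3] Kbar 3) : GaloisField 3 2 →+* Kbar 3)
  -- the natural representation and its central character
  have hirr := natRep_irr ι
  obtain ⟨φ₀, hφ₀⟩ := exists_brauerChar red (natRep ι)
  choose lam hlam using exists_scalar (natRep ι) hirr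
  have hzc : ∀ g : SL(2, GaloisField 3 2), g * tt (-1) = tt (-1) * g := tt_neg_one_central
  have hlamz : lam (ConjClasses.mk (tt (-1))) = -1 := by
    have h1 := LinearMap.congr_fun (hlam (ConjClasses.mk (tt (-1)))) ![1, 0]
    rw [classSum_central _ hzc, natRep_neg] at h1
    have h2 := congrFun h1 0
    simp at h2
    exact h2.symm
  refine ⟨lam, ⟨φ₀, 2, natRep ι, hirr, hφ₀, hlam⟩, ?_⟩
  rintro ⟨n, χ, φ, d, -, hχ, -, hφ, hdec, hdiag, hup⟩
  -- the first row
  have hn : 0 < n := by
    have : φ₀ ∈ Set.range φ := by
      rw [hφ]; exact ⟨2, natRep ι, hirr, hφ₀, hlam⟩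
    obtain ⟨i, _⟩ := this
    exact i.pos
  let i₀ : Fin n := ⟨0, hn⟩
  have hfirst : (fun g : Reg 3 SL(2, GaloisField 3 2) => χ i₀ g.1) = φ i₀ := by
    rw [hdec i₀, Finset.sum_eq_single i₀]
    · rw [hdiag i₀, one_smul]
    · intro j _ hj
      rw [hup i₀ j (lt_of_le_of_ne (Fin.mk_le_of_le_val (Nat.zero_le _)) (Ne.symm hj)), zero_smul]
    · intro h; exact absurd (Finset.mem_univ _) h
  obtain ⟨m, σ, hσ, hσφ, hσlam⟩ : φ i₀ ∈ IBr red lam := by rw [← hφ]; exact ⟨i₀, rfl⟩
  obtain ⟨m', τ, hτ, hτχ, hτlam⟩ := hχ i₀
  -- degrees
  have h1cop : (orderOf (1 : SL(2, GaloisField 3 2))).Coprime 3 := by simp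
  have hdeg : m = m' := by
    have h1 := brauerChar_one red σ hσφ h1cop
    have h2 := congrFun hfirst ⟨1, h1cop⟩
    simp only at h2
    rw [hτχ, Representation.char_one, h1] at h2
    simp only [Module.finrank_fin_fun] at h2
    exact_mod_cast h2.symm
  -- the central involution acts as `-1`
  have hσz : ∀ v, σ (tt (-1)) v = - v := by
    intro v
    have h1 := LinearMap.congr_fun (hσlam (ConjClasses.mk (tt (-1)))) v
    rw [classSum_central _ hzc, hlamz] at h1
    simpa using h1
  have hτz : ∀ v, τ (tt (-1)) v = - v := by
    obtain ⟨w, hw1, hw2⟩ := hτlam (ConjClasses.mk (tt (-1)))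
    rw [classSum_central _ hzc] at hw2
    rw [hlamz] at hw1
    have hsq : (tt (-1) : SL(2, GaloisField 3 2)) * tt (-1) = 1 := by
      rw [← tt_mul]; simp [tt_one]
    have hnt := irr_nontrivial hτ
    obtain ⟨v, hv⟩ := exists_ne (0 : Fin m' → ℂ)
    have h3 : ((w : ℂ) * (w : ℂ)) • v = (1 : ℂ) • v := by
      have h4 : τ (tt (-1) * tt (-1)) v = v := by rw [hsq, map_one]; rfl
      rw [map_mul, Module.End.mul_apply, hw2] at h4
      simp only [LinearMap.smul_apply, LinearMap.id_apply, smul_smul] at h4
      rw [h4, one_smul]
    have h5 : (w : ℂ) * (w : ℂ) = 1 := smul_left_injective ℂ hv h3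
    have h6 : w * w = 1 := Subtype.ext (by simpa using h5)
    have h7 : (w - 1) * (w + 1) = 0 := by ring_nf; rw [pow_two, h6]; ring
    have h8 : w = -1 := by
      rcases mul_eq_zero.mp h7 with h | h
      · exfalso
        rw [sub_eq_zero.mp h, map_one] at hw1
        have h3K : (3 : Kbar 3) = 0 := by exact_mod_cast CharP.cast_eq_zero (Kbar 3) 3
        have : (1 : Kbar 3) = 0 := by linear_combination h3K - hw1
        exact one_ne_zero this
      · exact eq_neg_of_add_eq_zero_left h
    intro v
    rw [hw2, h8]
    simp
  have h1 := modular_dim σ hcardF' hσ ι hσz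
  have h2 := ordinary_dim τ hcardF' hτ hτz
  have h3 := irr_nontrivial hσ
  have h4 : 0 < m := by
    rcases Nat.eq_zero_or_pos m with h | h
    · subst h
      exact absurd h3 (by rw [not_nontrivial_iff_subsingleton]; infer_instance)
    · exact h
  rw [Module.finrank_fin_fun] at h1 h2
  omega

end Pool.Agent.Results.MP_5c3aa2_al.NotUnitriangularH57
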